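import Pool.Agent.R3B.StmtsL
import Pool.Agent.Helper72_Shell.Radial
import Pool.Agent.BEC.Stmts

/-!
# Squad R3B (MP_be01ff_an), part B: from the characteristic form to strong solutions in the ball

`E 3 = ℝ³`, `intg`, `nrm`, `nrmv`, `Test`, `H10`, `Der`, `Ct`, `Ctv`, `Weak`, `Sol`, `SharpRate`:
`Pool/Agent/Helper70_BE01/Fun.lean`.
-/

set_option autoImplicit false

namespace Pool.Agent.R3B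

open Set Filter Topology MeasureTheory InnerProductSpace Laplacian
open scoped InnerProductSpace ENNReal
open Pool.Agent.BE01F
open Pool.Agent.Helper39_Wave (phi)
open Pool.Agent.Helper72_Shell (CharSol En psi fold bw)

noncomputable section

/-- The ball of radius `ℓ` in `ℝ³`. -/
def Bl (ℓ : ℝ) : Set (E 3) := {x | ‖x‖ < ℓ}

/-- `f(|x|)/|x|`. -/
def rf (f : ℝ → ℝ) (x : E 3) : ℝ := f ‖x‖ / ‖x‖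

/-- The gradient of `f(|x|)/|x|`, `g = f'`. -/
def rg (f g : ℝ → ℝ) (x : E 3) : E 3 := ((g ‖x‖ - f ‖x‖ / ‖x‖) / ‖x‖ ^ 2) • x

/-- The one-dimensional equation: `V = w_t`, `Z = w_r`, `A = V_t`, `B = V_r`, `C = Z_r`. -/
structure Prf (a α ℓ : ℝ) (w V Z A B C : ℝ → ℝ → ℝ) : Prop where
  cV : ContinuousOn (fun z : ℝ × ℝ => V z.1 z.2) (Ici 0 ×ˢ Icc 0 ℓ)
  cZ : ContinuousOn (fun z : ℝ × ℝ => Z z.1 z.2) (Ici 0 ×ˢ Icc 0 ℓ)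
  cA : ContinuousOn (fun z : ℝ × ℝ => A z.1 z.2) (Ici 0 ×ˢ Icc 0 ℓ)
  cB : ContinuousOn (fun z : ℝ × ℝ => B z.1 z.2) (Ici 0 ×ˢ Icc 0 ℓ)
  cC : ContinuousOn (fun z : ℝ × ℝ => C z.1 z.2) (Ici 0 ×ˢ Icc 0 ℓ)
  wr : ∀ t r, 0 ≤ t → 0 ≤ r → r ≤ ℓ → w t r = ∫ ρ in (0 : ℝ)..r, Z t ρ
  wl : ∀ t, 0 ≤ t → w t ℓ = 0
  Vr : ∀ t r, 0 ≤ t → 0 ≤ r → r ≤ ℓ → V t r = ∫ ρ in (0 : ℝ)..r, B t ρ
  Vl : ∀ t, 0 ≤ t → V t ℓ = 0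
  Zr : ∀ t r, 0 ≤ t → 0 ≤ r → r ≤ ℓ → Z t r = Z t 0 + ∫ ρ in (0 : ℝ)..r, C t ρ
  wt : ∀ t h r, 0 ≤ t → 0 ≤ h → 0 ≤ r → r ≤ ℓ → w (t + h) r - w t r = ∫ s in (0 : ℝ)..h, V (t + s) r
  Vt : ∀ t h r, 0 ≤ t → 0 ≤ h → 0 ≤ r → r ≤ ℓ → V (t + h) r - V t r = ∫ s in (0 : ℝ)..h, A (t + s) r
  Vb : ∃ K : ℝ, ∀ t r, 0 ≤ t → 0 ≤ r → r ≤ ℓ → |V t r| ≤ K * r
  eq : ∀ t r, 0 ≤ t → 0 < r → r ≤ ℓ → A t r - C t r + a * r ^ (-α) * (|V t r| ^ α * V t r) = 0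

/-- PRV (medium; uses PYD): three formulas, `t ≥ 0`, `0 ≤ r ≤ ℓ`, `N(t,y) = (a/2) bl(y-t) φ(DD P t y)`,
`N(t, t-ρ) = - N(t, t+ρ)` (`fold_neg`, `phi_neg`; `DD P t (t-ρ) = - DD P t (t+ρ)`), `fold ℓ ρ = ρ` on `[0, ℓ]`.
(1) `P(t,t+r) - P(t,t-r) = ∫_(t-r)^(t+r) (Y + N) dy` (PYD) `= ∫_0^r (Y(t,t+ρ) + Y(t,t-ρ)) dρ`, the part with
`N` vanishes.  (2) `P(t,t+r) - P(t,t) = ∫_0^r (Y + N)(t,t+ρ)`, `P(t,t-r) - P(t,t) = - ∫_0^r (Y+N)(t,t-ρ)`;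
add; `2 N(t,t+ρ) = a ρ^(-α) φ(..)`.  (3) `∫_(t-r)^(t+r) (P(t+h,y+h) - P(t,y)) dy =
∫_(t-r)^(t+r) ∫_0^h Y(t+s,y+s) ds dy = ∫_0^h ∫_(t+s-r)^(t+s+r) Y(t+s,y) dy ds` (Fubini, substitution), and
the inner integral is `P(t+s,t+s+r) - P(t+s,t+s-r)` by (1); `∫_0^r (P(t,t+ρ) + P(t,t-ρ)) dρ =
∫_(t-r)^(t+r) P(t,y) dy`. -/
def PrvStmt : Prop := ∀ (a α ℓ : ℝ) (P Y : ℝ → ℝ → ℝ), 0 < a → 0 < α → 0 < ℓ → BS a α ℓ P →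
  Continuous (fun z : ℝ × ℝ => Y z.1 z.2) →
  (∀ t h y, 0 ≤ t → 0 ≤ h → P (t + h) (y + h) - P t y = ∫ s in (0 : ℝ)..h, Y (t + s) (y + s)) →
  (∀ t r, 0 ≤ t → 0 ≤ r → r ≤ ℓ → P t (t + r) - P t (t - r) =
    ∫ ρ in (0 : ℝ)..r, (Y t (t + ρ) + Y t (t - ρ))) ∧
  (∀ t r, 0 ≤ t → 0 ≤ r → r ≤ ℓ → P t (t + r) + P t (t - r) = 2 * P t t +
    ∫ ρ in (0 : ℝ)..r, (Y t (t + ρ) - Y t (t - ρ) +
      a * ρ ^ (-α) * phi α (P t (t + ρ) - P t (t - ρ)))) ∧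
  ∀ t h r, 0 ≤ t → 0 ≤ h → 0 ≤ r → r ≤ ℓ →
    (∫ ρ in (0 : ℝ)..r, (P (t + h) (t + h + ρ) + P (t + h) (t + h - ρ))) -
      ∫ ρ in (0 : ℝ)..r, (P t (t + ρ) + P t (t - ρ)) =
    ∫ s in (0 : ℝ)..h, (P (t + s) (t + s + r) - P (t + s) (t + s - r))

/-- PRF (easy-medium; uses PYD, PRV): the profile.  `V t r = P t (t+r) - P t (t-r)`,
`Z t r = P t (t+r) + P t (t-r)`, `w t r = ∫_0^r Z`, `A t r = Y t (t+r) - Y t (t-r)`,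
`B t r = Y t (t+r) + Y t (t-r)`, `C t r = A t r + a r^(-α) φ(V t r)` (`0^(-α) = 0`; continuous on
`[0,∞) × [0,ℓ]` by PYD, first claim, as `fold ℓ r = r`).  `wl`: `∫_(t-ℓ)^(t+ℓ) P = 0` (`mean`, periodicity);
`Vl`: periodicity; `Vt`: the formula for `Y` with `y = t ± r`; `Vb`: `vb`, `K = 2π/ℓ`.  Last claim:
`V² + Z² = 2 (P(t+r)² + P(t-r)²)`. -/
def PrfStmt : Prop := ∀ (a α ℓ : ℝ) (P Y : ℝ → ℝ → ℝ), 0 < a → 0 < α → 0 < ℓ → BS a α ℓ P →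
  Continuous (fun z : ℝ × ℝ => Y z.1 z.2) → (∀ t y, Y t (y + 2 * ℓ) = Y t y) →
  (∀ t h y, 0 ≤ t → 0 ≤ h → P (t + h) (y + h) - P t y = ∫ s in (0 : ℝ)..h, Y (t + s) (y + s)) →
  ∃ w V Z A B C : ℝ → ℝ → ℝ, Prf a α ℓ w V Z A B C ∧
    ∀ t, 0 ≤ t → ∫ r in (0 : ℝ)..ℓ, (V t r ^ 2 + Z t r ^ 2) = 2 * En ℓ P t

/-- BIN (easy-medium; no hypotheses): polar coordinates (`integral_fun_norm_addHaar` for the function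
`f` times the indicator of `r < ℓ`, `EuclideanSpace.volume_ball_fin_three` or
`Helper72_Shell.integral_shell`: volume `4π/3` of the unit ball). -/
def BinStmt : Prop := ∀ (ℓ : ℝ) (f : ℝ → ℝ), 0 ≤ ℓ →
  intg (Bl ℓ) (fun x => f ‖x‖) = 4 * Real.pi * ∫ r in (0 : ℝ)..ℓ, r ^ 2 * f r

/-- NRM (easy-medium; uses BIN): the norm of `f(|x|)/|x|`: `(f/r)² r² = f²` for `r ≠ 0`. -/
def NrmStmt : Prop := ∀ (ℓ : ℝ) (f : ℝ → ℝ), 0 < ℓ → ContinuousOn f (Icc 0 ℓ) →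
  L2 (Bl ℓ) (rf f) ∧
  nrm (Bl ℓ) (rf f) = ENNReal.ofReal (Real.sqrt (4 * Real.pi * ∫ r in (0 : ℝ)..ℓ, f r ^ 2))

/-- NRV (easy-medium; uses BIN): the norm of the gradient: `‖rg f g x‖² = (g - f/r)²/r²`, `r = ‖x‖ ≠ 0`;
`|f r| ≤ r sup |g|`, so `g - f/r` is bounded, and continuous for `r > 0`. -/
def NrvStmt : Prop := ∀ (ℓ : ℝ) (f g : ℝ → ℝ), 0 < ℓ → ContinuousOn g (Icc 0 ℓ) →
  (∀ r, 0 ≤ r → r ≤ ℓ → f r = ∫ ρ in (0 : ℝ)..r, g ρ) →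
  L2v (Bl ℓ) (rg f g) ∧ nrmv (Bl ℓ) (rg f g) =
    ENNReal.ofReal (Real.sqrt (4 * Real.pi * ∫ r in (0 : ℝ)..ℓ, (g r - f r / r) ^ 2))

/-- HDY (easy-medium; no hypotheses): `(g - f/r)² = g² - (f²/r)'` for `r > 0` (`(f²/r)' = 2fg/r - f²/r²`);
integrate over `[δ, ℓ]`, `δ → 0`; `f(δ)²/δ ≤ δ sup g²`. -/
def HdyStmt : Prop := ∀ (ℓ : ℝ) (f g : ℝ → ℝ), 0 < ℓ → ContinuousOn g (Icc 0 ℓ) →
  (∀ r, 0 ≤ r → r ≤ ℓ → f r = ∫ ρ in (0 : ℝ)..r, g ρ) →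
  ∫ r in (0 : ℝ)..ℓ, (g r - f r / r) ^ 2 = (∫ r in (0 : ℝ)..ℓ, g r ^ 2) - f ℓ ^ 2 / ℓ

/-- ONE (medium; no hypotheses): density in one dimension.  `K = sup |g|`, `g_1 = g` times a smooth
cut-off, `= 1` on `[2δ, ℓ-2δ]`, `0` outside of `(δ, ℓ-δ)`: `∫ (g_1 - g)² ≤ 4δK²`; `g_1` (extended by `0`) is
continuous with compact support in `(0,ℓ)`: mollification `g_2` (`ContDiffBump.normed` convolution, see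
`Pool.Agent.BEC.H27.mol`; or Weierstrass polynomials times a cut-off), `|g_2 - g_1| ≤ δ`, support in
`(0,ℓ)`.  `m = ∫ g_2` is small (`∫ g = 0`, Cauchy-Schwarz), `η` a fixed bump function with support in
`(0,ℓ)`, `∫ η = 1`; `ψ(r) = ∫_0^r (g_2 - m η)`. -/
def OneStmt : Prop := ∀ (ℓ ε : ℝ) (g : ℝ → ℝ), 0 < ℓ → 0 < ε → ContinuousOn g (Icc 0 ℓ) →
  ∫ r in (0 : ℝ)..ℓ, g r = 0 → ∃ ψ : ℝ → ℝ, ContDiff ℝ ((⊤ : ℕ∞) : WithTop ℕ∞) ψ ∧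
    HasCompactSupport ψ ∧ tsupport ψ ⊆ Ioo 0 ℓ ∧ ∫ r in (0 : ℝ)..ℓ, (g r - deriv ψ r) ^ 2 ≤ ε

/-- HRD (medium; uses NRM, NRV, HDY, ONE): `f(|x|)/|x|` is in `H^1_0` of the ball.  `ψ` from ONE;
`Ψ = rf ψ` is smooth (it vanishes near `0` and for `‖x‖` near or above `ℓ`; `‖·‖` is smooth away from `0`),
a test function, with the gradient `rg ψ (deriv ψ)`.  `rf f - rf ψ = rf (f - ψ)`,
`rg f g - rg ψ ψ' = rg (f - ψ) (g - ψ')`, `f - ψ = ∫_0^r (g - ψ')`, zero at `ℓ`: by NRM, NRV, HDY the norms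
are `√(4π ∫ (f-ψ)²) ≤ √(4π ℓ² ε)` and `√(4π ∫ (g-ψ')²) ≤ √(4π ε)`. -/
def HrdStmt : Prop := ∀ (ℓ : ℝ) (f g : ℝ → ℝ), 0 < ℓ → ContinuousOn g (Icc 0 ℓ) →
  (∀ r, 0 ≤ r → r ≤ ℓ → f r = ∫ ρ in (0 : ℝ)..r, g ρ) → f ℓ = 0 → H10 (Bl ℓ) (rf f) (rg f g)

/-- LPA (medium; uses `Pool.Agent.BEC.GreStmt`, proved: `Pool.Agent.BEC.H59.gre`): the Laplacian away
from `0`.  `V = {0 < ‖x‖ < ℓ}`; `f` is `C²` on `(0,ℓ)` (`f' = g`, `g' = c`), so `rf f` is `C²` on `V`, with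
`gradient (rf f) = rg f g`, `Δ (rf f) = rf c` on `V` (`Helper72_Shell.laplacian_div` or
`laplacian_radial` with `f(r)/r`; `f` may be changed outside of `(0,ℓ)`, everything is local). -/
def LpaStmt : Prop := ∀ (ℓ : ℝ) (f g c : ℝ → ℝ), 0 < ℓ → ContinuousOn c (Icc 0 ℓ) →
  (∀ r, 0 ≤ r → r ≤ ℓ → f r = ∫ ρ in (0 : ℝ)..r, g ρ) →
  (∀ r, 0 ≤ r → r ≤ ℓ → g r = g 0 + ∫ ρ in (0 : ℝ)..r, c ρ) →
  ∀ ψ, Test (Bl ℓ) ψ → (0 : E 3) ∉ tsupport ψ →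
  intg (Bl ℓ) (fun x => ⟪rg f g x, gradient ψ x⟫_ℝ) = -intg (Bl ℓ) (fun x => rf c x * ψ x)

/-- LPB (medium; uses LPA, BIN): all test functions.  `θ : ℝ → ℝ` smooth, `0` on `(-∞, 1]`, `1` on
`[2, ∞)`, `χ_n(x) = θ(n² ‖x‖²)`: smooth, `‖∇χ_n‖ ≤ K n` and `∇χ_n = 0` for `‖x‖ ≥ 2/n`.  LPA for `χ_n ψ`:
`∫ χ_n ⟪rg f g, ∇ψ⟫ + ∫ ψ ⟪rg f g, ∇χ_n⟫ = - ∫ rf c χ_n ψ`; the second term is at most
`C K n ∫_(‖x‖ ≤ 2/n) C'/‖x‖ dx = O(1/n)` (`‖rg f g x‖ ≤ C'/‖x‖`), dominated convergence for the others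
(bounds `C''/‖x‖`, integrable on the ball). -/
def LpbStmt : Prop := ∀ (ℓ : ℝ) (f g c : ℝ → ℝ), 0 < ℓ → ContinuousOn c (Icc 0 ℓ) →
  (∀ r, 0 ≤ r → r ≤ ℓ → f r = ∫ ρ in (0 : ℝ)..r, g ρ) →
  (∀ r, 0 ≤ r → r ≤ ℓ → g r = g 0 + ∫ ρ in (0 : ℝ)..r, c ρ) →
  ∀ ψ, Test (Bl ℓ) ψ →
  intg (Bl ℓ) (fun x => ⟪rg f g x, gradient ψ x⟫_ℝ) = -intg (Bl ℓ) (fun x => rf c x * ψ x)

/-- WKB (easy-medium; uses LPB): the weak equation.  For `0 < r = ‖x‖ < ℓ`: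
`rf A + a |rf V|^α rf V = (A + a r^(-α) |V|^α V)/r = rf C`.  All the functions are bounded by `C/‖x‖`
(`rf V` is bounded, `Vb`), so integrable on the ball; they are measurable (continuous for `x ≠ 0`). -/
def WkbStmt : Prop := ∀ (a α ℓ : ℝ) (w V Z A B C : ℝ → ℝ → ℝ), 0 < a → 0 < α → 0 < ℓ →
  Prf a α ℓ w V Z A B C → ∀ t, 0 ≤ t → Weak (Bl ℓ) a α (rf (V t)) (rf (A t)) (rg (w t) (Z t))

/-- DRB (medium; uses NRM): derivatives in `L²`.  `w`, `V`, `A` are continuous on the compact set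
`[0,t+1] × [0,ℓ]`; `(s-t)⁻¹ (w s r - w t r) - V t r = (s-t)⁻¹ ∫ (V τ r - V t r) dτ` is uniformly small for
`r ∈ [0,ℓ]` (`wt` with the smaller time first), NRM: the norm is at most `√(4πℓ)` times the supremum.
The same for `V`, `A`.  `AeBdd`: `Vb`. -/
def DrbStmt : Prop := ∀ (a α ℓ : ℝ) (w V Z A B C : ℝ → ℝ → ℝ), 0 < a → 0 < α → 0 < ℓ →
  Prf a α ℓ w V Z A B C → ∀ t, 0 ≤ t →
  Der (Bl ℓ) (fun s => rf (w s)) (rf (V t)) t ∧ Der (Bl ℓ) (fun s => rf (V s)) (rf (A t)) t ∧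
  Ct (Bl ℓ) (fun s => rf (A s)) t ∧ L2 (Bl ℓ) (rf (A t)) ∧ AeBdd (Bl ℓ) (rf (V t))

/-- CTG (easy-medium; uses NRV, HDY): continuity of the gradient.  `rg (w s) (Z s) - rg (w t) (Z t) =
rg (w s - w t) (Z s - Z t)`, norm `≤ √(4π ∫ (Z s - Z t)²)`, uniform continuity of `Z`. -/
def CtgStmt : Prop := ∀ (a α ℓ : ℝ) (w V Z A B C : ℝ → ℝ → ℝ), 0 < a → 0 < α → 0 < ℓ →
  Prf a α ℓ w V Z A B C → ∀ t, 0 ≤ t → Ctv (Bl ℓ) (fun s => rg (w s) (Z s)) t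

/-- ENG (easy-medium; uses BIN, HDY): the energy.  The integrand is `(V² + (Z - w/r)²)/r²` for
`r = ‖x‖ ≠ 0`; HDY with `f ℓ = 0` (`wl`). -/
def EngStmt : Prop := ∀ (a α ℓ : ℝ) (w V Z A B C : ℝ → ℝ → ℝ), 0 < a → 0 < α → 0 < ℓ →
  Prf a α ℓ w V Z A B C → ∀ t, 0 ≤ t →
  energy (Bl ℓ) (fun s => rf (V s)) (fun s => rg (w s) (Z s)) t =
    4 * Real.pi * ∫ r in (0 : ℝ)..ℓ, (V t r ^ 2 + Z t r ^ 2)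

/-- SLB (easy; uses HRD, WKB, DRB, CTG): the strong solution; `vdom`: `F = rg (V t) (B t)`. -/
def SlbStmt : Prop := ∀ (a α ℓ : ℝ) (w V Z A B C : ℝ → ℝ → ℝ), 0 < a → 0 < α → 0 < ℓ →
  Prf a α ℓ w V Z A B C → Sol (Bl ℓ) a α (fun t => rf (w t)) (fun t => rf (V t))
    (fun t => rf (A t)) (fun t => rg (w t) (Z t))

/-- FIN (easy; uses BRT, SHA, SHB, PRF, SLB, ENG): THE THEOREM.  `energy = 8π En`. -/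
def FinStmt : Prop := ∀ (a α R : ℝ), 0 < a → 0 < α → α < 2 → 0 < R → SharpRate (Bl R) a α

end

end Pool.Agent.R3B
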