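import Pool.Agent.R3B.StmtsU

/-!
# Squad R3B (MP_be01ff_an), part L: Lipschitz bounds and the limit `ε → 0`; derivatives
-/

set_option autoImplicit false

namespace Pool.Agent.R3B

open Set Filter Topology MeasureTheory
open Pool.Agent.Helper39_Wave (phi)
open Pool.Agent.Helper72_Shell (CharSol En psi fold bw)

noncomputable section

/-- CMP (medium; no hypotheses): comparison of two solutions, compare `Helper72_Shell.max_principle`.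
`R = P1 - P2`; it is enough to show `R ≤ D0 + η t` (apply the result to `-P1`, `-P2`, `φ` is odd).  If it is
false at `(t1, y1)`: for a small `ε > 0` the maximum over `[0, t1] × ℝ` (periodicity) of
`R - (η + ε) t` is `> D0`, attained at `(ts, ys)`, `ts > 0`.  `R(ts, ys) ≥ R(ts, 2ts - ys)`, so at
`s = ts`: `V1 - V2 = R(ts,ys) - R(ts,2ts-ys) ≥ 0`, `c1 (φ(V1) - φ(V2)) ≥ 0`, so by continuity
`c1 (φ(V1) - φ(V2)) ≥ - ε/2` for `s ∈ [s0, ts]`, and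
`R(ts,ys) - R(s0,ys) = - ∫ (c1 (φ(V1) - φ(V2)) + (c1 - c2) φ(V2)) ≤ (ε/2 + η)(ts - s0)`, but
`R(ts,ys) - R(s0,ys) ≥ (η + ε)(ts - s0)`. -/
def CmpStmt : Prop := ∀ (α ℓ η D0 : ℝ) (c1 c2 : ℝ → ℝ) (P1 P2 : ℝ → ℝ → ℝ), 0 < α → 0 < ℓ →
  0 ≤ η → Continuous c1 → Continuous c2 → (∀ x, 0 ≤ c1 x) →
  Continuous (fun z : ℝ × ℝ => P1 z.1 z.2) → Continuous (fun z : ℝ × ℝ => P2 z.1 z.2) →
  (∀ t y, P1 t (y + 2 * ℓ) = P1 t y) → (∀ t y, P2 t (y + 2 * ℓ) = P2 t y) →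
  (∀ t1 t2 y, 0 ≤ t1 → t1 ≤ t2 → P1 t2 y - P1 t1 y =
    -∫ s in t1..t2, c1 (y - s) * phi α (P1 s y - P1 s (2 * s - y))) →
  (∀ t1 t2 y, 0 ≤ t1 → t1 ≤ t2 → P2 t2 y - P2 t1 y =
    -∫ s in t1..t2, c2 (y - s) * phi α (P2 s y - P2 s (2 * s - y))) →
  (∀ y, |P1 0 y - P2 0 y| ≤ D0) →
  (∀ t y, 0 ≤ t → |c1 (y - t) - c2 (y - t)| * |phi α (P2 t y - P2 t (2 * t - y))| ≤ η) →
  ∀ t y, 0 ≤ t → |P1 t y - P2 t y| ≤ D0 + η * t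

/-- LIP (medium; uses CMP): the shifted solution.  For `δ ≥ 0`, `P^δ(t,y) = P(t+δ,y+δ)` (for `t ≥ 0`)
satisfies the same equation: `b(y+δ-(s+δ)) = b(y-s)`, `2(s+δ) - (y+δ) = (2s-y) + δ`.  CMP with `η = 0`,
`c1 = c2 = κ b`: `|P^δ - P| ≤ D_δ = sup_y |P(δ,y+δ) - P(0,y)|` for all `t ≥ 0` (for `t < 0` the shift is
`P(max t 0 + δ, ..)`, only `t ≥ 0` is used in CMP; take `P1 t y = P (max t 0 + δ) (y + δ)`).
`D_δ ≤ sup |cos(π(y+δ)/ℓ) - cos(πy/ℓ)| + sup κ ∫_0^δ b |φ(V(s,·))| ≤ (π/ℓ) δ + κ δ sup_(s ≤ δ) |φ(V(s,·))|`,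
`V(0,y) = cos(πy/ℓ) - cos(-πy/ℓ) = 0`, so for every `η > 0`: `D_δ ≤ (π/ℓ + η) δ` for small `δ` (uniform
continuity of `P` on `[0,1] × ℝ`, periodic).  With `δ = h/n`, telescoping: `|P(t+h,y+h) - P(t,y)| ≤
n D_(h/n) ≤ (π/ℓ + η) h`. -/
def LipStmt : Prop := ∀ (κ α ℓ b0 : ℝ) (b : ℝ → ℝ) (P : ℝ → ℝ → ℝ), CharSol κ α ℓ b0 b P →
  (∀ y, P 0 y = Real.cos (Real.pi / ℓ * y)) → ∀ t h y, 0 ≤ t → 0 ≤ h →
  |P (t + h) (y + h) - P t y| ≤ Real.pi / ℓ * h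

/-- VBD (medium; no hypotheses): the velocity vanishes at `r = 0`, linearly.
`J(t) = ∫_(t-r)^(t+r) P(t,y) dy`, `r ≥ 0`.  (i) `|J(t+h) - J(t)| ≤ 2 r L h` (substitution `y ↦ y + h`).
(ii) `J(t+h) - J(t) = ∫_t^(t+h) (P(s,s+r) - P(s,s-r)) ds` for `t ≥ 0`: the derivative of `J` is
`P(t,t+r) - P(t,t-r) - κ ∫_(t-r)^(t+r) b(y-t) φ(P(t,y) - P(t,2t-y)) dy` and the last integral is `0`
(`y ↦ 2t - y`, `b` even, `φ` odd).  (For instance: `J(t) = ∫_(t-r)^(t+r) P(0,y) dy -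
κ ∫_(t-r)^(t+r) ∫_0^t b(y-s) φ(..) ds dy`, or with `u = y - t`: `P(t,t+u)`.)  So
`|P(t,t+r) - P(t,t-r)| ≤ 2 L r` (continuity, `h → 0`), and by periodicity and oddness in `r` the bound is
`2 L fold ℓ r` for all `r` (`Helper72_Shell.fold_cases`, `fold_eq`, `fold_per`). -/
def VbdStmt : Prop := ∀ (κ α ℓ b0 : ℝ) (b : ℝ → ℝ) (P : ℝ → ℝ → ℝ) (L : ℝ), CharSol κ α ℓ b0 b P →
  0 ≤ L → (∀ t h y, 0 ≤ t → 0 ≤ h → |P (t + h) (y + h) - P t y| ≤ L * h) →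
  ∀ t y, 0 ≤ t → |P t y - P t (2 * t - y)| ≤ 2 * L * fold ℓ (y - t)

/-- The weight of the ball. -/
def bl (α ℓ x : ℝ) : ℝ := fold ℓ x ^ (-α)

/-- Solutions in the ball of radius `ℓ`, in characteristic form; `P t = P 0` for `t ≤ 0`. -/
structure BS (a α ℓ : ℝ) (P : ℝ → ℝ → ℝ) : Prop where
  cont : Continuous fun z : ℝ × ℝ => P z.1 z.2
  neg : ∀ t y, t ≤ 0 → P t y = P 0 y
  per : ∀ t y, P t (y + 2 * ℓ) = P t y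
  ini : ∀ y, P 0 y = Real.cos (Real.pi / ℓ * y)
  mean : ∀ t, ∫ y in (0 : ℝ)..(2 * ℓ), P t y = 0
  vb : ∀ t y, 0 ≤ t → |P t y - P t (2 * t - y)| ≤ 2 * (Real.pi / ℓ) * fold ℓ (y - t)
  lip : ∀ t h y, 0 ≤ t → 0 ≤ h → |P (t + h) (y + h) - P t y| ≤ Real.pi / ℓ * h
  ode : ∀ t1 t2 y, 0 ≤ t1 → t1 ≤ t2 → P t2 y - P t1 y =
    -(a / 2) * ∫ s in t1..t2, bl α ℓ (y - s) * phi α (P s y - P s (2 * s - y))

/-- LIM (medium; uses CMP, LIP, VBD): the limit.  `ε_n = 1/(n+1)`, `κ_n = (a/2) ε_n^(-α)`,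
`b_n = bw ε_n α ℓ`, so `κ_n b_n(x) = (a/2) (ε_n + f)^(-α)`, `f = fold ℓ x` (`wt_shell`, `exists_charSol`:
`P_n(0,y) = cos(πy/ℓ)`).  `UB`: `κ_n b0_n = (a/2)(ε_n+ℓ)^(-α)`, `κ_n b_n f^α ≤ a/2`, VBD with `L = π/ℓ`
(LIP).  CMP: `|κ_n b_n - κ_m b_m| |φ(V_m)| ≤ (a/2) |(ε_n+f)^(-α) - (ε_m+f)^(-α)| (Λ f)^(α+1) ≤
C (ε_n + ε_m)`, because `f^(α+1) (f^(-α) - (ε+f)^(-α)) = f (1 - (f/(ε+f))^α) ≤ (α+1) ε` (`f > 0`); so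
`|P_n - P_m| ≤ C (ε_n + ε_m) t`: uniform convergence on bounded time intervals, `P(t,y)` = the limit of
`P_n(max t 0, y)`, continuous; the bounds pass to the limit; `ode`: dominated convergence,
`κ_n b_n φ(V_n) → (a/2) f^(-α) φ(V)` (if `f = 0` all the terms are `0`), bounded by
`(a/2) Λ^(α+1) ℓ`. -/
def LimStmt : Prop := ∀ (a α ℓ : ℝ), 0 < a → 0 < α → 0 < ℓ →
  ∃ (P : ℝ → ℝ → ℝ) (κ b0 : ℕ → ℝ) (b : ℕ → ℝ → ℝ) (Pn : ℕ → ℝ → ℝ → ℝ), BS a α ℓ P ∧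
    (∀ n, UB (κ n) α ℓ (b0 n) (b n) (Pn n) (a / 2 * (1 + ℓ) ^ (-α)) (a / 2)
      (2 * (Real.pi / ℓ))) ∧ (∀ n y, Pn n 0 y = Real.cos (Real.pi / ℓ * y)) ∧
    ∀ t y, 0 ≤ t → Tendsto (fun n => Pn n t y) atTop (𝓝 (P t y))

/-- BRT (easy-medium; uses URT, LIM): the rate for the limit.  `En ℓ (Pn n) 0 = ∫_0^(2ℓ) cos² = ℓ`;
`En ℓ (Pn n) t → En ℓ P t` (`|Pn| ≤ 1`: SUP is not needed, `UB.one` and `CharSol.abs_le_of_le`;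
dominated convergence). -/
def BrtStmt : Prop := ∀ (a α ℓ : ℝ), 0 < a → 0 < α → α < 2 → 0 < ℓ → ∃ P : ℝ → ℝ → ℝ,
  BS a α ℓ P ∧ ∃ c C : ℝ, 0 < c ∧ 0 < C ∧ ∀ t, 0 ≤ t →
    c * (1 + t) ^ (-(2 / α)) ≤ En ℓ P t ∧ En ℓ P t ≤ C * (1 + t) ^ (-(2 / α))

/-! ## The derivative along `(1, 1)` -/

/-- The velocity. -/
def DD (P : ℝ → ℝ → ℝ) (t y : ℝ) : ℝ := P t y - P t (2 * t - y)

/-- The difference quotient along `(1, 1)`. -/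
def qq (P : ℝ → ℝ → ℝ) (h t y : ℝ) : ℝ := (P (t + h) (y + h) - P t y) / h

/-- SHE (medium; no hypotheses): the error of the linearization.  `V = DD P s y`,
`V' = DD P (s+h) (y+h)`, `V' - V = h (qq(s,y) - qq(s,2s-y))`, `|V' - V| ≤ 2 L h`, `L = π/ℓ` (`lip`),
`f = fold ℓ (y-s)`, `|V|, |V'| ≤ 2 L f` (`vb`).  The integrand is at most
`(a/2) f^(-α) · 2 (α+1)(2Lf)^α · 2L = K1` (mean value, `phi_sub_le`), and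
where `f ≥ η` it is at most `(a/2) η^(-α) ω(2Lh) 2L`, `ω` = the modulus of continuity of
`(α+1)|·|^α` on `[-2π, 2π]` (`φ(V') - φ(V) = φ'(ξ)(V'-V)`).  The set of the `s ∈ [0,T]` with
`fold ℓ (y-s) < η` has a measure `≤ 2η (T/(2ℓ) + 2)`, uniformly in `y` (or: the integral over `[0,T]` is at
most the one over `N` periods, `N = ⌈T/(2ℓ)⌉`, and the integral over a period does not depend on
`y`). -/
def SheStmt : Prop := ∀ (a α ℓ : ℝ) (P : ℝ → ℝ → ℝ), 0 < a → 0 < α → 0 < ℓ → BS a α ℓ P →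
  ∀ T ε : ℝ, 0 < T → 0 < ε → ∃ δ : ℝ, 0 < δ ∧ ∀ h y : ℝ, 0 < h → h ≤ δ →
  ∫ s in (0 : ℝ)..T, (a / 2) * bl α ℓ (y - s) *
    |(phi α (DD P (s + h) (y + h)) - phi α (DD P s y)) / h -
      (α + 1) * |DD P s y| ^ α * (qq P h s y - qq P h s (2 * s - y))| ≤ ε

/-- SHA (medium; uses SHE): the difference quotients are uniformly Cauchy.  `ode` at `(t+h, y+h)` and
at `(t, y)`: `qq h t y = qq h 0 y - (a/2) ∫_0^t bl(y-s) (φ(DD P (s+h) (y+h)) - φ(DD P s y))/h ds`, so for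
`z = qq h - qq h'`, `|z(t,y)| ≤ |z(0,y)| + ∫_0^t K (|z(s,y)| + |z(s,2s-y)|) ds + 2 ε`,
`K = (a/2)(α+1)(2L)^α` (bound of `(a/2) bl (α+1) |DD|^α`, `vb`); Gronwall for
`Z(t) = sup_y |z(t,y)|` (or iterate the inequality).  `z(0,y)`:
`qq h 0 y = (cos(π(y+h)/ℓ) - cos(πy/ℓ))/h + (P h (y+h) - P 0 (y+h))/h`; the first term converges
uniformly to `-(π/ℓ) sin(πy/ℓ)`; the second one is at most `C h`: `|DD P s y| ≤ 2 L s` (`DD P 0 = 0`, and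
`DD P s y = (P(s,y) - P(0,y-s)) - (P(s,2s-y) - P(0,s-y)) + 0` with `lip`), so
`bl |φ(DD)| ≤ f^(-α) (2Lf)^α 2Ls`. -/
def ShaStmt : Prop := ∀ (a α ℓ : ℝ) (P : ℝ → ℝ → ℝ), 0 < a → 0 < α → 0 < ℓ → BS a α ℓ P →
  ∀ T ε : ℝ, 0 < T → 0 < ε → ∃ δ : ℝ, 0 < δ ∧ ∀ h h' t y : ℝ, 0 < h → h ≤ δ → 0 < h' → h' ≤ δ →
  0 ≤ t → t ≤ T → |qq P h t y - qq P h' t y| ≤ ε

/-- SHB (medium; no hypotheses): the derivative.  `Y(t,y) = lim_(h → 0+) qq P h (max t 0) y`, locally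
uniform, so `Y` is continuous (uniform limit of continuous functions on `[0,T] × ℝ`) and periodic.
`F(s) = P(t+s,y+s)` is continuous on `[0, ∞)` with the right derivative `Y(t+s,y+s)`, continuous:
`intervalIntegral.integral_eq_sub_of_hasDeriv_right` (or `..._of_le`). -/
def ShbStmt : Prop := ∀ (ℓ : ℝ) (P : ℝ → ℝ → ℝ), Continuous (fun z : ℝ × ℝ => P z.1 z.2) →
  (∀ t y, P t (y + 2 * ℓ) = P t y) →
  (∀ T ε : ℝ, 0 < T → 0 < ε → ∃ δ : ℝ, 0 < δ ∧ ∀ h h' t y : ℝ, 0 < h → h ≤ δ → 0 < h' → h' ≤ δ →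
    0 ≤ t → t ≤ T → |qq P h t y - qq P h' t y| ≤ ε) →
  ∃ Y : ℝ → ℝ → ℝ, Continuous (fun z : ℝ × ℝ => Y z.1 z.2) ∧ (∀ t y, Y t (y + 2 * ℓ) = Y t y) ∧
    ∀ t h y, 0 ≤ t → 0 ≤ h → P (t + h) (y + h) - P t y = ∫ s in (0 : ℝ)..h, Y (t + s) (y + s)

/-- PYD (medium; no hypotheses): the derivative in `y`.  For `t ≥ 0`, `N(t,y) = (a/2) bl(y-t) φ(DD P t y)`,
`|N(t,y)| ≤ (a/2) f^(-α) (2Lf)^(α+1) = C f`, so `N` is continuous on `[0,∞) × ℝ` (at `f = 0`: `N = 0` and the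
bound; elsewhere `bl` is continuous).  `P(t,y+h) - P(t,y) = (P(t+h,y+h) - P(t,y)) -
(P(t+h,y+h) - P(t,y+h)) = ∫_0^h Y(t+s,y+s) ds + ∫_t^(t+h) N(s,y+h) ds`; divide by `h > 0`, `h → 0`: the
right derivative of `P(t,·)` is `Y(t,y) + N(t,y)`, continuous;
`intervalIntegral.integral_eq_sub_of_hasDeriv_right`. -/
def PydStmt : Prop := ∀ (a α ℓ : ℝ) (P Y : ℝ → ℝ → ℝ), 0 < a → 0 < α → 0 < ℓ → BS a α ℓ P →
  Continuous (fun z : ℝ × ℝ => Y z.1 z.2) →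
  (∀ t h y, 0 ≤ t → 0 ≤ h → P (t + h) (y + h) - P t y = ∫ s in (0 : ℝ)..h, Y (t + s) (y + s)) →
  ContinuousOn (fun z : ℝ × ℝ => bl α ℓ (z.2 - z.1) * phi α (DD P z.1 z.2)) (Ici 0 ×ˢ univ) ∧
  ∀ t y1 y2, 0 ≤ t → P t y2 - P t y1 =
    ∫ y in y1..y2, (Y t y + (a / 2) * (bl α ℓ (y - t) * phi α (DD P t y)))

end

end Pool.Agent.R3B
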